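import Mathlib
import Pool.Agent.W684.MADef

/-!
# Solovay's lemma and two consequences of Martin's axiom for `ℵ₁` dense sets
-/

set_option autoImplicit false

namespace Pool.Agent.W866.SS

open Set Cardinal Pool.Agent.W684

/-- Conditions: a finite set of points together with a finite set of promises. -/
structure Cnd (N : Type) (ιA : Type) (A : ιA → Set N) where
  s : Finset N
  F : Finset ιA

variable {N ιA ιB : Type}

instance (A : ιA → Set N) : Preorder (Cnd N ιA A) where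
  le q p := p.s ⊆ q.s ∧ p.F ⊆ q.F ∧ ∀ x ∈ q.s, x ∉ p.s → ∀ a ∈ p.F, x ∉ A a
  le_refl p := ⟨subset_rfl, subset_rfl, fun x hx hx' => absurd hx hx'⟩
  le_trans r q p h1 h2 := by
    refine ⟨h2.1.trans h1.1, h2.2.1.trans h1.2.1, fun x hx hxp a ha => ?_⟩
    by_cases hxq : x ∈ q.s
    · exact h2.2.2 x hxq hxp a ha
    · exact h1.2.2 x hx hxq a (h2.2.1 ha)

theorem cnd_ccc [Countable N] (A : ιA → Set N) : IsCCC (Cnd N ιA A) := by
  classical
  intro 𝒞 h𝒞
  have hinj : Set.InjOn (fun p : Cnd N ιA A => p.s) 𝒞 := by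
    intro p hp q hq hpq
    by_contra hne
    refine h𝒞 p hp q hq hne ⟨⟨p.s, p.F ∪ q.F⟩, ⟨subset_rfl, Finset.subset_union_left, ?_⟩,
      ⟨?_, Finset.subset_union_right, ?_⟩⟩
    · intro x hx hx'; exact absurd hx hx'
    · have : p.s = q.s := hpq
      rw [← this]
    · intro x hx hx'
      have : p.s = q.s := hpq
      exact absurd (this ▸ hx) hx'
  exact Set.MapsTo.countable_of_injOn (t := Set.univ) (fun _ _ => Set.mem_univ _) hinj
    (Set.countable_univ)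

/-- **Solovay's lemma.** -/
theorem solovay (hMA : MartinAxiomAleph1) [Countable N] (hA : #ιA ≤ ℵ₁) (hB : #ιB ≤ ℵ₁)
    (A : ιA → Set N) (B : ιB → Set N)
    (h : ∀ b : ιB, ∀ F : Finset ιA, (B b \ ⋃ a ∈ F, A a).Infinite) :
    ∃ C : Set N, (∀ a, (C ∩ A a).Finite) ∧ ∀ b, (C ∩ B b).Infinite := by
  classical
  let D1 : ιA → Set (Cnd N ιA A) := fun a => {p | a ∈ p.F}
  let D2 : ιB × Finset N → Set (Cnd N ιA A) := fun bt => {p | ∃ x ∈ p.s, x ∈ B bt.1 ∧ x ∉ bt.2}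
  have hcard : #(↥(Set.range D1 ∪ Set.range D2)) ≤ ℵ₁ := by
    have h1 : #(↥(Set.range D1)) ≤ ℵ₁ := (Cardinal.mk_range_le).trans hA
    have h2 : #(↥(Set.range D2)) ≤ ℵ₁ := by
      refine (Cardinal.mk_range_le).trans ?_
      rw [Cardinal.mk_prod, Cardinal.lift_id, Cardinal.lift_id]
      refine (mul_le_mul' hB (?_ : #(Finset N) ≤ ℵ₁)).trans ?_
      · exact (Cardinal.mk_le_aleph0 (α := Finset N)).trans (Cardinal.aleph0_le_aleph 1)
      · rw [Cardinal.mul_eq_self (Cardinal.aleph0_le_aleph 1)]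
    refine (Cardinal.mk_union_le _ _).trans ((add_le_add h1 h2).trans ?_)
    rw [Cardinal.add_eq_self (Cardinal.aleph0_le_aleph 1)]
  haveI : Nonempty (Cnd N ιA A) := ⟨⟨∅, ∅⟩⟩
  obtain ⟨G, -, hup, hdir, hmeet⟩ := hMA (Cnd N ιA A) (cnd_ccc A) (Set.range D1 ∪ Set.range D2)
    hcard (by
      rintro D (⟨a, rfl⟩ | ⟨⟨b, t⟩, rfl⟩) p
      · refine ⟨⟨p.s, insert a p.F⟩, Finset.mem_insert_self _ _, subset_rfl,
          Finset.subset_insert _ _, fun x hx hx' => absurd hx hx'⟩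
      · have hinf := h b p.F
        obtain ⟨x, hx, hxt⟩ := (hinf.diff (t.finite_toSet)).nonempty
        refine ⟨⟨insert x p.s, p.F⟩, ⟨x, Finset.mem_insert_self _ _, hx.1, by simpa using hxt⟩,
          Finset.subset_insert _ _, subset_rfl, ?_⟩
        intro y hy hyp a ha hya
        rcases Finset.mem_insert.1 hy with rfl | hy'
        · exact hx.2 (Set.mem_iUnion₂.2 ⟨a, ha, hya⟩)
        · exact hyp hy')
  refine ⟨⋃ p ∈ G, (p.s : Set N), fun a => ?_, fun b => ?_⟩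
  · obtain ⟨p, hpG, hpa⟩ := hmeet (D1 a) (Or.inl ⟨a, rfl⟩)
    refine (p.s.finite_toSet).subset ?_
    rintro x ⟨hx, hxa⟩
    obtain ⟨q, hqG, hxq⟩ := Set.mem_iUnion₂.1 hx
    obtain ⟨r, -, hrp, hrq⟩ := hdir p hpG q hqG
    by_contra hxp
    exact hrp.2.2 x (hrq.1 hxq) hxp a hpa hxa
  · intro hfin
    obtain ⟨p, hpG, x, hxs, hxb, hxt⟩ := hmeet (D2 (b, hfin.toFinset)) (Or.inr ⟨_, rfl⟩)
    exact hxt (by
      rw [Set.Finite.mem_toFinset]
      exact ⟨Set.mem_iUnion₂.2 ⟨p, hpG, hxs⟩, hxb⟩)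

/-- Under `MA_{ℵ₁}` every family of `ℵ₁` functions on a countable set is dominated. -/
theorem dominate (hMA : MartinAxiomAleph1) {M ι : Type} [Countable M] (hι : #ι ≤ ℵ₁)
    (F : ι → M → ℕ) : ∃ G : M → ℕ, ∀ k, {l | G l < F k l}.Finite := by
  classical
  obtain ⟨C, hC1, hC2⟩ := solovay (N := M × ℕ) (ιB := M) hMA hι
    ((Cardinal.mk_le_aleph0 (α := M)).trans (Cardinal.aleph0_le_aleph 1))
    (fun k => {x | x.2 < F k x.1 }) (fun l => {x | x.1 = l}) (by
      intro l T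
      have hfin : ({x : M × ℕ | x.1 = l} ∩ ⋃ k ∈ T, {x : M × ℕ | x.2 < F k x.1}).Finite := by
        refine ((T.finite_toSet.biUnion (t := fun k => (fun m : ℕ => (l, m)) '' Set.Iio (F k l))
          (fun k _ => (Set.finite_Iio _).image _))).subset ?_
        rintro ⟨l', m⟩ ⟨h1, h2⟩
        obtain ⟨k, hk, hk2⟩ := Set.mem_iUnion₂.1 h2
        have h1' : l' = l := h1
        subst h1'
        exact Set.mem_iUnion₂.2 ⟨k, hk, m, hk2, rfl⟩
      have hinf : ({x : M × ℕ | x.1 = l}).Infinite := by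
        refine Set.infinite_of_injective_forall_mem (f := fun m : ℕ => (l, m)) ?_ (fun m => rfl)
        intro a b hab
        exact (Prod.ext_iff.1 hab).2
      have := hinf.diff hfin
      refine this.mono ?_
      rintro x ⟨hx1, hx2⟩
      exact ⟨hx1, fun hx3 => hx2 ⟨hx1, hx3⟩⟩)
  have hne : ∀ l : M, ∃ m : ℕ, (l, m) ∈ C := by
    intro l
    obtain ⟨⟨l', m⟩, hx, hl⟩ := (hC2 l).nonempty
    have : l' = l := hl
    subst this
    exact ⟨m, hx⟩
  choose G hG using hne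
  refine ⟨G, fun k => ?_⟩
  refine ((hC1 k).image Prod.fst).subset ?_
  intro l hl
  exact ⟨(l, G l), ⟨hG l, hl⟩, rfl⟩

end Pool.Agent.W866.SS
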