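import Mathlib

/-!
# The lexicographic order on sequences of rationals
-/

set_option autoImplicit false

namespace Pool.Agent.W866.SS

open Set

/-- Sequences of rationals with the lexicographic order. -/
abbrev Om : Type := Lex (ℕ → ℚ)

theorem lt_iff {x y : Om} : x < y ↔ ∃ n, (∀ i < n, x i = y i) ∧ x n < y n := Iff.rfl

theorem exists_first {x y : Om} (h : x ≠ y) : ∃ n, (∀ i < n, x i = y i) ∧ x n ≠ y n := by
  classical
  have h1 : ∃ n, x n ≠ y n := by
    by_contra hc
    push Not at hc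
    exact h (funext hc)
  refine ⟨Nat.find h1, fun i hi => ?_, Nat.find_spec h1⟩
  have := Nat.find_min h1 hi
  push Not at this
  exact this

theorem coord_le {x y : Om} {n : ℕ} (h : ∀ i < n, x i = y i) (hxy : x ≤ y) : x n ≤ y n := by
  rcases hxy.lt_or_eq with hlt | rfl
  · obtain ⟨m, hm, hmlt⟩ := lt_iff.1 hlt
    rcases lt_trichotomy n m with h1 | h1 | h1
    · exact (hm n h1).le
    · subst h1; exact hmlt.le
    · exact absurd (h m h1) hmlt.ne
  · exact le_rfl

/-- If `a < k < a'` agree below `n` and `a n = a' n` then `k n = a n`. -/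
theorem coord_eq {a k a' : Om} {n : ℕ} (h1 : ∀ i < n, a i = k i) (h2 : ∀ i < n, k i = a' i)
    (hak : a ≤ k) (hka : k ≤ a') (he : a n = a' n) : k n = a n :=
  le_antisymm ((coord_le h2 hka).trans he.symm.le) (coord_le h1 hak)

/-- A countable set of sequences which is dense in the strong sense. -/
def D0 : Set Om := {x | ∃ n, ∀ i, n ≤ i → x i = 0}

theorem D0_countable : D0.Countable := by
  have h : D0 ⊆ Set.range (fun l : List ℚ => (toLex (fun i => l.getD i 0) : Om)) := by
    rintro x ⟨n, hn⟩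
    refine ⟨(List.range n).map x, ?_⟩
    funext i
    by_cases hi : i < n
    · change ((List.range n).map x).getD i 0 = x i
      simp [List.getD, hi]
    · change ((List.range n).map x).getD i 0 = x i
      have hi' : n ≤ i := not_lt.1 hi
      rw [hn i hi']
      simp [List.getD, hi']
  exact (Set.countable_range _).mono h

theorem exists_between' {x y : Om} (h : x < y) : ∃ d ∈ D0, x < d ∧ d < y := by
  obtain ⟨n, hn, hlt⟩ := lt_iff.1 h
  obtain ⟨q, hq1, hq2⟩ := exists_between hlt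
  refine ⟨toLex (fun i => if i < n then x i else if i = n then q else 0), ⟨n + 1, ?_⟩,
    lt_iff.2 ⟨n, ?_, ?_⟩, lt_iff.2 ⟨n, ?_, ?_⟩⟩
  · intro i hi
    change (if i < n then x i else if i = n then q else 0) = 0
    rw [if_neg (by omega), if_neg (by omega)]
  · intro i hi
    change x i = (if i < n then x i else if i = n then q else 0)
    rw [if_pos hi]
  · change x n < (if n < n then x n else if n = n then q else 0)
    simpa using hq1
  · intro i hi
    change (if i < n then x i else if i = n then q else 0) = y i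
    rw [if_pos hi]; exact hn i hi
  · change (if n < n then x n else if n = n then q else 0) < y n
    simpa using hq2

/-- Every nonempty set has a monotone cofinal sequence starting at a given point. -/
theorem exists_cofinal (Q : Set Om) (k0 : Om) (hk0 : k0 ∈ Q) :
    ∃ u : ℕ → Om, Monotone u ∧ (∀ i, u i ∈ Q) ∧ u 0 = k0 ∧ ∀ k ∈ Q, ∃ i, k ≤ u i := by
  classical
  -- a countable cofinal subset
  have hc : ∃ T : Set Om, T.Countable ∧ T ⊆ Q ∧ ∀ k ∈ Q, ∃ t ∈ T, k ≤ t := by
    by_cases hmax : ∃ m ∈ Q, ∀ k ∈ Q, k ≤ m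
    · obtain ⟨m, hm, hm2⟩ := hmax
      exact ⟨{m}, Set.countable_singleton _, by simpa using hm, fun k hk => ⟨m, rfl, hm2 k hk⟩⟩
    · push Not at hmax
      have : ∀ d : Om, ∃ t ∈ Q, (∃ q ∈ Q, d ≤ q) → d ≤ t := by
        intro d
        by_cases h : ∃ q ∈ Q, d ≤ q
        · obtain ⟨q, hq, hdq⟩ := h; exact ⟨q, hq, fun _ => hdq⟩
        · exact ⟨k0, hk0, fun h' => absurd h' h⟩
      choose t ht ht2 using this
      refine ⟨t '' D0, D0_countable.image _, ?_, ?_⟩
      · rintro _ ⟨d, -, rfl⟩; exact ht d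
      · intro k hk
        obtain ⟨k', hk', hlt⟩ := hmax k hk
        obtain ⟨d, hd, h1, h2⟩ := exists_between' hlt
        exact ⟨t d, ⟨d, hd, rfl⟩, h1.le.trans (ht2 d ⟨k', hk', h2.le⟩)⟩
  obtain ⟨T, hTc, hTQ, hT⟩ := hc
  have hTne : T.Nonempty := by
    obtain ⟨t, ht, -⟩ := hT k0 hk0; exact ⟨t, ht⟩
  obtain ⟨f, hf⟩ := hTc.exists_eq_range hTne
  let u : ℕ → Om := fun n => Nat.rec k0 (fun i z => max z (f i)) n
  have hu : ∀ n, u (n + 1) = max (u n) (f n) := fun n => rfl
  refine ⟨u, monotone_nat_of_le_succ (fun n => by rw [hu]; exact le_max_left _ _), ?_, rfl, ?_⟩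
  · intro n
    induction n with
    | zero => exact hk0
    | succ n ih =>
      rw [hu]
      rcases max_choice (u n) (f n) with h | h
      · rw [h]; exact ih
      · rw [h]; exact hTQ (hf ▸ ⟨n, rfl⟩)
  · intro k hk
    obtain ⟨t, ht, hkt⟩ := hT k hk
    rw [hf] at ht
    obtain ⟨n, rfl⟩ := ht
    exact ⟨n + 1, by rw [hu]; exact hkt.trans (le_max_right _ _)⟩

theorem exists_coinitial (Q : Set Om) (k0 : Om) (hk0 : k0 ∈ Q) :
    ∃ v : ℕ → Om, Antitone v ∧ (∀ i, v i ∈ Q) ∧ v 0 = k0 ∧ ∀ k ∈ Q, ∃ i, v i ≤ k := by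
  classical
  have hc : ∃ T : Set Om, T.Countable ∧ T ⊆ Q ∧ ∀ k ∈ Q, ∃ t ∈ T, t ≤ k := by
    by_cases hmax : ∃ m ∈ Q, ∀ k ∈ Q, m ≤ k
    · obtain ⟨m, hm, hm2⟩ := hmax
      exact ⟨{m}, Set.countable_singleton _, by simpa using hm, fun k hk => ⟨m, rfl, hm2 k hk⟩⟩
    · push Not at hmax
      have : ∀ d : Om, ∃ t ∈ Q, (∃ q ∈ Q, q ≤ d) → t ≤ d := by
        intro d
        by_cases h : ∃ q ∈ Q, q ≤ d
        · obtain ⟨q, hq, hdq⟩ := h; exact ⟨q, hq, fun _ => hdq⟩
        · exact ⟨k0, hk0, fun h' => absurd h' h⟩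
      choose t ht ht2 using this
      refine ⟨t '' D0, D0_countable.image _, ?_, ?_⟩
      · rintro _ ⟨d, -, rfl⟩; exact ht d
      · intro k hk
        obtain ⟨k', hk', hlt⟩ := hmax k hk
        obtain ⟨d, hd, h1, h2⟩ := exists_between' hlt
        exact ⟨t d, ⟨d, hd, rfl⟩, (ht2 d ⟨k', hk', h1.le⟩).trans h2.le⟩
  obtain ⟨T, hTc, hTQ, hT⟩ := hc
  have hTne : T.Nonempty := by
    obtain ⟨t, ht, -⟩ := hT k0 hk0; exact ⟨t, ht⟩
  obtain ⟨f, hf⟩ := hTc.exists_eq_range hTne
  let u : ℕ → Om := fun n => Nat.rec k0 (fun i z => min z (f i)) n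
  have hu : ∀ n, u (n + 1) = min (u n) (f n) := fun n => rfl
  refine ⟨u, antitone_nat_of_succ_le (fun n => by rw [hu]; exact min_le_left _ _), ?_, rfl, ?_⟩
  · intro n
    induction n with
    | zero => exact hk0
    | succ n ih =>
      rw [hu]
      rcases min_choice (u n) (f n) with h | h
      · rw [h]; exact ih
      · rw [h]; exact hTQ (hf ▸ ⟨n, rfl⟩)
  · intro k hk
    obtain ⟨t, ht, hkt⟩ := hT k hk
    rw [hf] at ht
    obtain ⟨n, rfl⟩ := ht
    exact ⟨n + 1, by rw [hu]; exact (min_le_right _ _).trans hkt⟩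

/-- The order on sequences of rationals embeds into the reals. -/
theorem exists_embedding : ∃ φ : Om → ℝ, StrictMono φ := by
  classical
  obtain ⟨f, hf⟩ := D0_countable.exists_eq_range ⟨toLex (fun _ => 0), 0, fun _ _ => rfl⟩
  let w : Om → ℕ → ℝ := fun x n => if f n < x then (1 / 2 : ℝ) ^ n else 0
  have hsum : ∀ x, Summable (w x) := fun x =>
    Summable.of_nonneg_of_le (fun n => by
      change 0 ≤ (if f n < x then (1 / 2 : ℝ) ^ n else 0)
      split_ifs <;> positivity) (fun n => by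
      change (if f n < x then (1 / 2 : ℝ) ^ n else 0) ≤ (1 / 2 : ℝ) ^ n
      split_ifs
      · exact le_rfl
      · positivity) summable_geometric_two
  refine ⟨fun x => ∑' n, w x n, fun x y hxy => ?_⟩
  obtain ⟨d, hd, h1, h2⟩ := exists_between' hxy
  rw [hf] at hd
  obtain ⟨n, rfl⟩ := hd
  refine Summable.tsum_lt_tsum (i := n) (fun m => ?_) ?_ (hsum x) (hsum y)
  · change (if f m < x then (1 / 2 : ℝ) ^ m else 0) ≤ (if f m < y then (1 / 2 : ℝ) ^ m else 0)
    split_ifs with h3 h4 h4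
    · exact le_rfl
    · exact absurd (lt_trans h3 hxy) h4
    · positivity
    · exact le_rfl
  · have h3 : ¬ f n < x := fun h => lt_irrefl _ (lt_trans h h1)
    calc w x n = 0 := if_neg h3
      _ < (1 / 2 : ℝ) ^ n := by positivity
      _ = w y n := (if_pos h2).symm

end Pool.Agent.W866.SS
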