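import Mathlib
import Pool.Agent.W866.SS.Order

/-!
# Coordinates for the pieces of a partition
-/

set_option autoImplicit false

namespace Pool.Agent.W866.SS

open Set

/-- The index order: a copy of `ℚ` for every cut, one point for every representative. -/
def Lam (C R : Set Om) : Type :=
  {p : Om ×ₗ ℚ // (ofLex p).1 ∈ C ∨ ((ofLex p).1 ∈ R ∧ (ofLex p).2 = 0)}

noncomputable instance (C R : Set Om) : LinearOrder (Lam C R) :=
  inferInstanceAs (LinearOrder {p : Om ×ₗ ℚ // (ofLex p).1 ∈ C ∨ ((ofLex p).1 ∈ R ∧ (ofLex p).2 = 0)})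

/-- The first coordinate. -/
def pr {C R : Set Om} (p : Lam C R) : Om := (ofLex p.1).1

/-- The second coordinate. -/
def sc {C R : Set Om} (p : Lam C R) : ℚ := (ofLex p.1).2

theorem pr_mem {C R : Set Om} (p : Lam C R) : pr p ∈ C ∨ (pr p ∈ R ∧ sc p = 0) := p.2

theorem lam_lt {C R : Set Om} {p q : Lam C R} :
    p < q ↔ pr p < pr q ∨ pr p = pr q ∧ sc p < sc q := Prod.Lex.lt_iff

/-- The copy of a cut. -/
def cut {C R : Set Om} (d : Om) (hd : d ∈ C) (q : ℚ) : Lam C R := ⟨toLex (d, q), Or.inl hd⟩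

/-- The point of a representative. -/
def rpt {C R : Set Om} (r : Om) (hr : r ∈ R) : Lam C R := ⟨toLex (r, 0), Or.inr ⟨hr, rfl⟩⟩

@[simp] theorem pr_cut {C R : Set Om} (d : Om) (hd : d ∈ C) (q : ℚ) :
    pr (cut (R := R) d hd q) = d := rfl
@[simp] theorem sc_cut {C R : Set Om} (d : Om) (hd : d ∈ C) (q : ℚ) :
    sc (cut (R := R) d hd q) = q := rfl
@[simp] theorem pr_rpt {C R : Set Om} (r : Om) (hr : r ∈ R) :
    pr (rpt (C := C) r hr) = r := rfl
@[simp] theorem sc_rpt {C R : Set Om} (r : Om) (hr : r ∈ R) :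
    sc (rpt (C := C) r hr) = 0 := rfl

theorem lam_ext {C R : Set Om} {p q : Lam C R} (h1 : pr p = pr q) (h2 : sc p = sc q) : p = q := by
  apply Subtype.ext
  have : ofLex p.1 = ofLex q.1 := Prod.ext h1 h2
  exact ofLex.injective this

theorem exists_iso {C R : Set Om} (hCc : C.Countable) (hRc : R.Countable)
    (h1 : ∀ r ∈ R, ∃ d ∈ C, d < r) (h2 : ∀ r ∈ R, ∃ d ∈ C, r < d)
    (h3 : ∀ r ∈ R, ∀ r' ∈ R, r < r' → ∃ d ∈ C, r < d ∧ d < r')
    (u0 u1 : Lam C R) (h01 : u0 < u1) : ∃ θ : Lam C R ≃o ℚ, θ u0 = 0 ∧ θ u1 = 1 := by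
  haveI : Countable (C ∪ R : Set Om) := (hCc.union hRc).to_subtype
  haveI : Countable (Lam C R) := by
    let g : Lam C R → (C ∪ R : Set Om) × ℚ := fun p =>
      (⟨pr p, by rcases pr_mem p with h | h; exacts [Or.inl h, Or.inr h.1]⟩, sc p)
    have hg : Function.Injective g := by
      intro p q hpq
      have h1 := congrArg (fun z => (z.1 : Om)) hpq
      have h2 := congrArg (fun z => z.2) hpq
      exact lam_ext h1 h2
    exact hg.countable
  haveI : DenselyOrdered (Lam C R) := by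
    refine ⟨fun p q hpq => ?_⟩
    rcases pr_mem p with hp | hp
    · rcases lam_lt.1 hpq with h | ⟨h, h'⟩
      · refine ⟨cut (pr p) hp (sc p + 1), lam_lt.2 (Or.inr ⟨rfl, ?_⟩), lam_lt.2 (Or.inl h)⟩
        simp
      · obtain ⟨z, hz1, hz2⟩ := exists_between h'
        exact ⟨cut (pr p) hp z, lam_lt.2 (Or.inr ⟨rfl, hz1⟩), lam_lt.2 (Or.inr ⟨h, hz2⟩)⟩
    · rcases pr_mem q with hq | hq
      · rcases lam_lt.1 hpq with h | ⟨h, h'⟩
        · refine ⟨cut (pr q) hq (sc q - 1), lam_lt.2 (Or.inl h), lam_lt.2 (Or.inr ⟨rfl, ?_⟩)⟩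
          simp
        · have hp' : pr p ∈ C := h ▸ hq
          obtain ⟨z, hz1, hz2⟩ := exists_between h'
          exact ⟨cut (pr p) hp' z, lam_lt.2 (Or.inr ⟨rfl, hz1⟩), lam_lt.2 (Or.inr ⟨h, hz2⟩)⟩
      · rcases lam_lt.1 hpq with h | ⟨h, h'⟩
        · obtain ⟨d, hd, hd1, hd2⟩ := h3 _ hp.1 _ hq.1 h
          exact ⟨cut d hd 0, lam_lt.2 (Or.inl hd1), lam_lt.2 (Or.inl hd2)⟩
        · rw [hp.2, hq.2] at h'
          exact absurd h' (lt_irrefl _)
  haveI : NoMaxOrder (Lam C R) := by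
    refine ⟨fun p => ?_⟩
    rcases pr_mem p with hp | hp
    · exact ⟨cut (pr p) hp (sc p + 1), lam_lt.2 (Or.inr ⟨rfl, by simp⟩)⟩
    · obtain ⟨d, hd, hd1⟩ := h2 _ hp.1
      exact ⟨cut d hd 0, lam_lt.2 (Or.inl hd1)⟩
  haveI : NoMinOrder (Lam C R) := by
    refine ⟨fun p => ?_⟩
    rcases pr_mem p with hp | hp
    · exact ⟨cut (pr p) hp (sc p - 1), lam_lt.2 (Or.inr ⟨rfl, by simp⟩)⟩
    · obtain ⟨d, hd, hd1⟩ := h1 _ hp.1
      exact ⟨cut d hd 0, lam_lt.2 (Or.inl hd1)⟩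
  haveI : Nonempty (Lam C R) := ⟨u0⟩
  obtain ⟨θ⟩ := Order.iso_of_countable_dense (Lam C R) ℚ
  have hlt : θ u0 < θ u1 := θ.strictMono h01
  have hpos : 0 < θ u1 - θ u0 := sub_pos.2 hlt
  refine ⟨θ.trans ((OrderIso.subRight (θ u0)).trans (OrderIso.divRight₀ (θ u1 - θ u0) hpos)), ?_, ?_⟩
  · simp
  · simp [div_self hpos.ne']

end Pool.Agent.W866.SS
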