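import Mathlib
import Pool.Agent.W866.SS.Pieces

/-!
# Partitioning a part by cuts
-/

set_option autoImplicit false

namespace Pool.Agent.W866.SS

open Set

/-- The part of `P` containing `r` determined by the cuts `C`. -/
def part (P C : Set Om) (r : Om) : Set Om := {k | k ∈ P ∧ k ∉ C ∧ ∀ d ∈ C, d < k ↔ d < r}

theorem part_eq {P C : Set Om} {r k : Om} (hk : k ∈ part P C r) : part P C k = part P C r := by
  ext z
  constructor
  · rintro ⟨h1, h2, h3⟩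
    exact ⟨h1, h2, fun d hd => (h3 d hd).trans (hk.2.2 d hd)⟩
  · rintro ⟨h1, h2, h3⟩
    exact ⟨h1, h2, fun d hd => (h3 d hd).trans (hk.2.2 d hd).symm⟩

theorem self_mem_part {P C : Set Om} {k : Om} (h1 : k ∈ P) (h2 : k ∉ C) : k ∈ part P C k :=
  ⟨h1, h2, fun _ _ => Iff.rfl⟩

/-- The chosen representative of the part of `k`. -/
noncomputable def rep (P C : Set Om) (k : Om) : Om :=
  Classical.epsilon (fun r => r ∈ part P C k)

theorem rep_mem {P C : Set Om} {k : Om} (h1 : k ∈ P) (h2 : k ∉ C) : rep P C k ∈ part P C k :=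
  Classical.epsilon_spec (p := fun r => r ∈ part P C k) ⟨k, self_mem_part h1 h2⟩

theorem rep_eq {P C : Set Om} {k k' : Om} (h : part P C k = part P C k') :
    rep P C k = rep P C k' := by
  unfold rep; rw [h]

theorem step_core (P C : Set Om) (n : ℕ) (hCP : C ⊆ P) (hCc : C.Countable) (hCne : C.Nonempty)
    (hgap : ∀ k ∈ P, k ∉ C → ∃ a ∈ C, ∃ a' ∈ C, a < k ∧ k < a' ∧ a n = k n ∧ a' n = k n ∧
      ∀ d ∈ C, ¬ (a < d ∧ d < a'))
    (Z0 Z1 : Set Om) (hZ0 : Z0 = ∅ ∨ ∃ z ∈ P, z ∉ C ∧ Z0 = part P C z)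
    (hZ1 : Z1 = ∅ ∨ ∃ z ∈ P, z ∉ C ∧ Z1 = part P C z) (hZ : ∀ z ∈ Z0, ∀ z' ∈ Z1, z < z') :
    ∃ st : ℚ → Set Om, (∀ q, (st q).Nonempty) ∧ (∀ q, st q ⊆ P) ∧ (∀ k ∈ P, ∃ q, k ∈ st q) ∧
      (∀ q q', q < q' → (∃ d, st q = {d} ∧ st q' = {d}) ∨ ∀ k ∈ st q, ∀ k' ∈ st q', k < k') ∧
      (∀ q, (∃ d, st q = {d}) ∨ ∃ a ∈ P, ∃ a' ∈ P, a n = a' n ∧ st q = {k | k ∈ P ∧ a < k ∧ k < a'}) ∧
      (∀ k ∈ C, ∃ q, st q = {k}) ∧
      (Z0.Nonempty → st 0 = Z0) ∧ (Z0 = ∅ → ∃ d, st 0 = {d}) ∧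
      (Z1.Nonempty → st 1 = Z1) ∧ (Z1 = ∅ → ∃ d, st 1 = {d}) := by
  classical
  let R : Set Om := {r | ∃ k ∈ P, k ∉ C ∧ r = rep P C k}
  have hRprop : ∀ r ∈ R, r ∈ P ∧ r ∉ C ∧ rep P C r = r := by
    rintro _ ⟨k, hk, hkC, rfl⟩
    have hm := rep_mem hk hkC
    exact ⟨hm.1, hm.2.1, rep_eq (part_eq hm)⟩
  have h1 : ∀ r ∈ R, ∃ d ∈ C, d < r := by
    intro r hr
    obtain ⟨a, ha, a', ha', h⟩ := hgap r (hRprop r hr).1 (hRprop r hr).2.1
    exact ⟨a, ha, h.1⟩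
  have h2 : ∀ r ∈ R, ∃ d ∈ C, r < d := by
    intro r hr
    obtain ⟨a, ha, a', ha', h⟩ := hgap r (hRprop r hr).1 (hRprop r hr).2.1
    exact ⟨a', ha', h.2.1⟩
  have hsep : ∀ r ∈ P, r ∉ C → ∀ r' ∈ P, r' ∉ C → part P C r ≠ part P C r' → r < r' →
      ∃ d ∈ C, r < d ∧ d < r' := by
    intro r hr hrC r' hr' hrC' hne hlt
    by_contra hcon
    push Not at hcon
    apply hne
    refine (part_eq (⟨hr, hrC, fun d hd => ⟨fun h => h.trans hlt, fun h => ?_⟩⟩ : r ∈ part P C r'))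
    by_contra hdr
    rcases (not_lt.1 hdr).lt_or_eq with h' | h'
    · exact hcon d hd h' h
    · exact hrC (h' ▸ hd)
  have h3 : ∀ r ∈ R, ∀ r' ∈ R, r < r' → ∃ d ∈ C, r < d ∧ d < r' := by
    intro r hr r' hr' hlt
    refine hsep r (hRprop r hr).1 (hRprop r hr).2.1 r' (hRprop r' hr').1 (hRprop r' hr').2.1 ?_ hlt
    intro he
    have := rep_eq he
    rw [(hRprop r hr).2.2, (hRprop r' hr').2.2] at this
    exact absurd this hlt.ne
  have hRc : R.Countable := by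
    have : ∀ r : Om, ∃ a : Om, r ∈ R → a ∈ C ∧ a < r ∧ ∀ d ∈ C, d < r → d ≤ a := by
      intro r
      by_cases hr : r ∈ R
      · obtain ⟨a, ha, a', ha', h4, h5, -, -, h6⟩ := hgap r (hRprop r hr).1 (hRprop r hr).2.1
        exact ⟨a, fun _ => ⟨ha, h4, fun d hd hdr => not_lt.1 fun had => h6 d hd ⟨had, hdr.trans h5⟩⟩⟩
      · exact ⟨r, fun h => absurd h hr⟩
    choose a ha using this
    refine Set.MapsTo.countable_of_injOn (f := a) (t := C) (fun r hr => (ha r hr).1) ?_ hCc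
    intro r hr r' hr' he
    by_contra hne
    rcases lt_or_gt_of_ne hne with hlt | hlt
    · obtain ⟨d, hd, h4, h5⟩ := h3 r hr r' hr' hlt
      have := (ha r' hr').2.2 d hd h5
      have h6 := (ha r hr).2.1
      rw [he] at h6
      exact absurd (h4.trans_le this) (not_lt.2 h6.le)
    · obtain ⟨d, hd, h4, h5⟩ := h3 r' hr' r hr hlt
      have := (ha r hr).2.2 d hd h5
      have h6 := (ha r' hr').2.1
      rw [← he] at h6
      exact absurd (h4.trans_le this) (not_lt.2 h6.le)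
  -- the two pinned points
  have hpin : ∃ u0 u1 : Lam C R, u0 < u1 ∧ (Z0.Nonempty → pr u0 ∈ Z0 ∧ pr u0 ∉ C) ∧
      (Z0 = ∅ → pr u0 ∈ C) ∧ (Z1.Nonempty → pr u1 ∈ Z1 ∧ pr u1 ∉ C) ∧ (Z1 = ∅ → pr u1 ∈ C) := by
    have key : ∀ Z : Set Om, (Z = ∅ ∨ ∃ z ∈ P, z ∉ C ∧ Z = part P C z) →
        Z = ∅ ∨ ∃ r ∈ R, r ∈ Z ∧ r ∉ C := by
      rintro Z (h | ⟨z, hz, hzC, rfl⟩)
      · exact Or.inl h
      · exact Or.inr ⟨rep P C z, ⟨z, hz, hzC, rfl⟩, rep_mem hz hzC, (rep_mem hz hzC).2.1⟩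
    rcases key Z0 hZ0 with h0 | ⟨r0, hr0, hr0Z, hr0C⟩
    · rcases key Z1 hZ1 with h1' | ⟨r1, hr1, hr1Z, hr1C⟩
      · obtain ⟨d, hd⟩ := hCne
        refine ⟨cut d hd 0, cut d hd 1, lam_lt.2 (Or.inr ⟨rfl, by simp⟩), ?_, fun _ => hd, ?_,
          fun _ => hd⟩
        · intro h; rw [h0] at h; exact absurd h Set.not_nonempty_empty
        · intro h; rw [h1'] at h; exact absurd h Set.not_nonempty_empty
      · obtain ⟨d, hd, hdr⟩ := h1 r1 hr1
        refine ⟨cut d hd 0, rpt r1 hr1, lam_lt.2 (Or.inl hdr), ?_, fun _ => hd, fun _ => ⟨hr1Z, hr1C⟩,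
          ?_⟩
        · intro h; rw [h0] at h; exact absurd h Set.not_nonempty_empty
        · intro h; rw [h] at hr1Z; exact absurd hr1Z (Set.notMem_empty _)
    · rcases key Z1 hZ1 with h1' | ⟨r1, hr1, hr1Z, hr1C⟩
      · obtain ⟨d, hd, hdr⟩ := h2 r0 hr0
        refine ⟨rpt r0 hr0, cut d hd 0, lam_lt.2 (Or.inl hdr), fun _ => ⟨hr0Z, hr0C⟩, ?_, ?_,
          fun _ => hd⟩
        · intro h; rw [h] at hr0Z; exact absurd hr0Z (Set.notMem_empty _)
        · intro h; rw [h1'] at h; exact absurd h Set.not_nonempty_empty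
      · refine ⟨rpt r0 hr0, rpt r1 hr1, lam_lt.2 (Or.inl (hZ r0 hr0Z r1 hr1Z)),
          fun _ => ⟨hr0Z, hr0C⟩, ?_, fun _ => ⟨hr1Z, hr1C⟩, ?_⟩
        · intro h; rw [h] at hr0Z; exact absurd hr0Z (Set.notMem_empty _)
        · intro h; rw [h] at hr1Z; exact absurd hr1Z (Set.notMem_empty _)
  obtain ⟨u0, u1, h01, hu0, hu0', hu1, hu1'⟩ := hpin
  obtain ⟨θ, hθ0, hθ1⟩ := exists_iso hCc hRc h1 h2 h3 u0 u1 h01
  let st : ℚ → Set Om := fun q => if pr (θ.symm q) ∈ C then {pr (θ.symm q)}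
    else part P C (pr (θ.symm q))
  have hstC : ∀ q, pr (θ.symm q) ∈ C → st q = {pr (θ.symm q)} := fun q h => if_pos h
  have hstR : ∀ q, pr (θ.symm q) ∉ C → st q = part P C (pr (θ.symm q)) := fun q h => if_neg h
  have hR' : ∀ q, pr (θ.symm q) ∉ C → pr (θ.symm q) ∈ R := fun q h => by
    rcases pr_mem (θ.symm q) with h' | h'
    · exact absurd h' h
    · exact h'.1
  have hpinst : ∀ (u : Lam C R) (q : ℚ) (Z : Set Om), θ u = q →
      (Z = ∅ ∨ ∃ z ∈ P, z ∉ C ∧ Z = part P C z) →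
      (Z.Nonempty → pr u ∈ Z ∧ pr u ∉ C) → (Z = ∅ → pr u ∈ C) →
      (Z.Nonempty → st q = Z) ∧ (Z = ∅ → ∃ d, st q = {d}) := by
    intro u q Z hq hZ' ha hb
    have hs : θ.symm q = u := by rw [← hq]; simp
    refine ⟨fun hne => ?_, fun he => ?_⟩
    · obtain ⟨h4, h5⟩ := ha hne
      rcases hZ' with h | ⟨z, hz, hzC, hZz⟩
      · rw [h] at hne; exact absurd hne Set.not_nonempty_empty
      · rw [hstR q (by rw [hs]; exact h5), hs, hZz]
        exact part_eq (hZz ▸ h4)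
    · exact ⟨pr (θ.symm q), hstC q (by rw [hs]; exact hb he)⟩
  refine ⟨st, ?_, ?_, ?_, ?_, ?_, ?_, (hpinst u0 0 Z0 hθ0 hZ0 hu0 hu0').1,
    (hpinst u0 0 Z0 hθ0 hZ0 hu0 hu0').2, (hpinst u1 1 Z1 hθ1 hZ1 hu1 hu1').1,
    (hpinst u1 1 Z1 hθ1 hZ1 hu1 hu1').2⟩
  · intro q
    by_cases h : pr (θ.symm q) ∈ C
    · rw [hstC q h]; exact Set.singleton_nonempty _
    · rw [hstR q h]
      exact ⟨_, self_mem_part (hRprop _ (hR' q h)).1 h⟩
  · intro q
    by_cases h : pr (θ.symm q) ∈ C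
    · rw [hstC q h]; exact Set.singleton_subset_iff.2 (hCP h)
    · rw [hstR q h]; exact fun k hk => hk.1
  · intro k hk
    by_cases hkC : k ∈ C
    · refine ⟨θ (cut k hkC 0), ?_⟩
      have hs : θ.symm (θ (cut k hkC 0)) = cut k hkC 0 := by simp
      rw [hstC _ (by rw [hs]; exact hkC), hs]
      rfl
    · have hr : rep P C k ∈ R := ⟨k, hk, hkC, rfl⟩
      refine ⟨θ (rpt (rep P C k) hr), ?_⟩
      have hs : θ.symm (θ (rpt (rep P C k) hr)) = rpt (rep P C k) hr := by simp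
      rw [hstR _ (by rw [hs]; exact (hRprop _ hr).2.1), hs]
      change k ∈ part P C (rep P C k)
      rw [part_eq (rep_mem hk hkC)]
      exact self_mem_part hk hkC
  · intro q q' hqq'
    have hlt : θ.symm q < θ.symm q' := θ.symm.strictMono hqq'
    rcases lam_lt.1 hlt with h | ⟨h, h'⟩
    · right
      intro k hk k' hk'
      by_cases hq : pr (θ.symm q) ∈ C
      · rw [hstC q hq] at hk
        rw [Set.mem_singleton_iff.1 hk]
        by_cases hq' : pr (θ.symm q') ∈ C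
        · rw [hstC q' hq'] at hk'
          rw [Set.mem_singleton_iff.1 hk']
          exact h
        · rw [hstR q' hq'] at hk'
          exact (hk'.2.2 _ hq).2 h
      · rw [hstR q hq] at hk
        by_cases hq' : pr (θ.symm q') ∈ C
        · rw [hstC q' hq'] at hk'
          rw [Set.mem_singleton_iff.1 hk']
          have h4 : ¬ pr (θ.symm q') < k := fun h5 => absurd ((hk.2.2 _ hq').1 h5) (not_lt.2 h.le)
          rcases (not_lt.1 h4).lt_or_eq with h5 | h5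
          · exact h5
          · exact absurd (h5 ▸ hq') hk.2.1
        · rw [hstR q' hq'] at hk'
          obtain ⟨d, hd, hd1, hd2⟩ := h3 _ (hR' q hq) _ (hR' q' hq') h
          have h4 : ¬ d < k := fun h5 => absurd ((hk.2.2 _ hd).1 h5) (not_lt.2 hd1.le)
          exact (not_lt.1 h4).trans_lt ((hk'.2.2 _ hd).2 hd2)
    · left
      have hq : pr (θ.symm q) ∈ C := by
        by_contra hq
        rcases pr_mem (θ.symm q) with h4 | h4
        · exact hq h4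
        · rcases pr_mem (θ.symm q') with h5 | h5
          · exact hq (h ▸ h5)
          · rw [h4.2, h5.2] at h'
            exact absurd h' (lt_irrefl _)
      exact ⟨pr (θ.symm q), hstC q hq, by rw [hstC q' (h ▸ hq), ← h]⟩
  · intro q
    by_cases h : pr (θ.symm q) ∈ C
    · exact Or.inl ⟨_, hstC q h⟩
    · right
      obtain ⟨a, ha, a', ha', h4, h5, h6, h7, h8⟩ := hgap _ (hRprop _ (hR' q h)).1 h
      refine ⟨a, hCP ha, a', hCP ha', h6.trans h7.symm, ?_⟩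
      rw [hstR q h]
      ext k
      constructor
      · rintro ⟨hkP, hkC, hk⟩
        refine ⟨hkP, (hk a ha).2 h4, ?_⟩
        have h9 : ¬ a' < k := fun h10 => absurd ((hk a' ha').1 h10) (not_lt.2 h5.le)
        rcases (not_lt.1 h9).lt_or_eq with h10 | h10
        · exact h10
        · exact absurd (h10 ▸ ha') hkC
      · rintro ⟨hkP, hak, hka⟩
        refine ⟨hkP, fun hkC => h8 k hkC ⟨hak, hka⟩, fun d hd => ⟨fun hdk => ?_, fun hdr => ?_⟩⟩
        · have : ¬ a < d := fun had => h8 d hd ⟨had, hdk.trans hka⟩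
          exact (not_lt.1 this).trans_lt h4
        · have : ¬ a < d := fun had => h8 d hd ⟨had, hdr.trans h5⟩
          exact (not_lt.1 this).trans_lt hak
  · intro k hk
    refine ⟨θ (cut k hk 0), ?_⟩
    have hs : θ.symm (θ (cut k hk 0)) = cut k hk 0 := by simp
    rw [hstC _ (by rw [hs]; exact hk), hs]
    rfl

end Pool.Agent.W866.SS
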