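import Mathlib
import Pool.Agent.W866.SS.Core

/-!
# One step of the construction
-/

set_option autoImplicit false

namespace Pool.Agent.W866.SS

open Set

/-- The properties of the assignment of parts to digits at one node. -/
structure IsStep (P : Set Om) (n : ℕ) (b : Prop) (ρ : Om → ℕ) (m : ℕ) (st : ℚ → Set Om) :
    Prop where
  ne : ∀ q, (st q).Nonempty
  sub : ∀ q, st q ⊆ P
  cover : ∀ k ∈ P, ∃ q, k ∈ st q
  mono : ∀ q q', q < q' → (∃ d, st q = {d} ∧ st q' = {d}) ∨ ∀ k ∈ st q, ∀ k' ∈ st q', k < k'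
  shape : ∀ q, (∃ d, st q = {d}) ∨
    ∃ a ∈ P, ∃ a' ∈ P, a n = a' n ∧ st q = {k | k ∈ P ∧ a < k ∧ k < a'}
  canon : ∀ q, q = 0 ∨ q = 1 → (∃ d, st q = {d}) ∨ (¬ b ∧ ∀ k ∈ st q, k n = q)
  wide : ¬ b → ∀ k ∈ P, (k n = 0 ∨ k n = 1) → ρ k ≤ m → k ∈ st (k n) ∨ ∃ q, st q = {k}

theorem step_exists (P : Set Om) (hP : P.Nonempty) (n : ℕ)
    (hag : ∀ x ∈ P, ∀ y ∈ P, ∀ i < n, x i = y i) (b : Prop) :
    ∃ ρ : Om → ℕ, ∀ m : ℕ, ∃ st : ℚ → Set Om, IsStep P n b ρ m st := by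
  classical
  -- the blocks and their cofinal sequences
  let blk : ℚ → Set Om := fun x => {k | k ∈ P ∧ k n = x}
  have huv : ∀ x : ℚ, ∃ u v : ℕ → Om, (blk x).Nonempty → Monotone u ∧ Antitone v ∧ v 0 = u 0 ∧
      (∀ i, u i ∈ blk x) ∧ (∀ i, v i ∈ blk x) ∧ (∀ k ∈ blk x, ∃ i, k ≤ u i) ∧
      ∀ k ∈ blk x, ∃ i, v i ≤ k := by
    intro x
    by_cases h : (blk x).Nonempty
    · obtain ⟨k0, hk0⟩ := h
      obtain ⟨u, hu1, hu2, hu3, hu4⟩ := exists_cofinal (blk x) k0 hk0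
      obtain ⟨v, hv1, hv2, hv3, hv4⟩ := exists_coinitial (blk x) k0 hk0
      exact ⟨u, v, fun _ => ⟨hu1, hv1, hv3.trans hu3.symm, hu2, hv2, hu4, hv4⟩⟩
    · exact ⟨fun _ => toLex 0, fun _ => toLex 0, fun h' => absurd h' h⟩
  choose u v huv using huv
  have hbd : ∀ k : Om, ∃ r : ℕ, k ∈ P → v (k n) r ≤ k ∧ k ≤ u (k n) r := by
    intro k
    by_cases hk : k ∈ P
    · obtain ⟨h1, h2, h3, h4, h5, h6, h7⟩ := huv (k n) ⟨k, hk, rfl⟩
      obtain ⟨i, hi⟩ := h6 k ⟨hk, rfl⟩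
      obtain ⟨j, hj⟩ := h7 k ⟨hk, rfl⟩
      exact ⟨max i j, fun _ => ⟨(h2 (le_max_right i j)).trans hj, hi.trans (h1 (le_max_left i j))⟩⟩
    · exact ⟨0, fun h => absurd h hk⟩
  choose ρ hρ using hbd
  refine ⟨ρ, fun m => ?_⟩
  let C : Set Om := {d | ∃ x, (blk x).Nonempty ∧ ∃ i, m ≤ i ∧ (d = u x i ∨ d = v x i)}
  have hCmem : ∀ d ∈ C, d ∈ P := by
    rintro d ⟨x, hx, i, hi, rfl | rfl⟩
    · exact ((huv x hx).2.2.2.1 i).1
    · exact ((huv x hx).2.2.2.2.1 i).1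
  have hCc : C.Countable := by
    have : C ⊆ (⋃ x : ℚ, ⋃ i : ℕ, ({u x i, v x i} : Set Om)) := by
      rintro d ⟨x, hx, i, hi, h⟩
      refine Set.mem_iUnion.2 ⟨x, Set.mem_iUnion.2 ⟨i, ?_⟩⟩
      rcases h with rfl | rfl
      · exact Set.mem_insert _ _
      · exact Set.mem_insert_of_mem _ rfl
    exact (Set.countable_iUnion fun x => Set.countable_iUnion fun i =>
      (Set.toFinite _).countable).mono this
  have hCne : C.Nonempty := by
    obtain ⟨k, hk⟩ := hP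
    exact ⟨u (k n) m, k n, ⟨k, hk, rfl⟩, m, le_rfl, Or.inl rfl⟩
  have hltP : ∀ x ∈ P, ∀ y ∈ P, x n < y n → x < y := fun x hx y hy h =>
    lt_iff.2 ⟨n, hag x hx y hy, h⟩
  have hgap : ∀ k ∈ P, k ∉ C → ∃ a ∈ C, ∃ a' ∈ C, a < k ∧ k < a' ∧ a n = k n ∧ a' n = k n ∧
      ∀ d ∈ C, ¬ (a < d ∧ d < a') := by
    intro k hk hkC
    have hx : (blk (k n)).Nonempty := ⟨k, hk, rfl⟩
    obtain ⟨h1, h2, h3, h4, h5, h6, h7⟩ := huv (k n) hx
    obtain ⟨i0, hi0⟩ := h6 k ⟨hk, rfl⟩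
    obtain ⟨j0, hj0⟩ := h7 k ⟨hk, rfl⟩
    obtain ⟨j, hjm, hji, hjj⟩ : ∃ j, m ≤ j ∧ i0 ≤ j ∧ j0 ≤ j :=
      ⟨max m (max i0 j0), le_max_left _ _, (le_max_left _ _).trans (le_max_right _ _),
        (le_max_right _ _).trans (le_max_right _ _)⟩
    have hku : k < u (k n) j := lt_of_le_of_ne (hi0.trans (h1 hji))
      (fun h => hkC ⟨k n, hx, j, hjm, Or.inl h⟩)
    have hvk : v (k n) j < k := lt_of_le_of_ne ((h2 hjj).trans hj0)
      (fun h => hkC ⟨k n, hx, j, hjm, Or.inr h.symm⟩)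
    let F : Finset Om := (Finset.Icc m j).image (u (k n)) ∪ (Finset.Icc m j).image (v (k n))
    have hFC : ∀ d ∈ F, d ∈ C ∧ d n = k n := by
      intro d hd
      rcases Finset.mem_union.1 hd with h | h
      · obtain ⟨i, hi, rfl⟩ := Finset.mem_image.1 h
        exact ⟨⟨k n, hx, i, (Finset.mem_Icc.1 hi).1, Or.inl rfl⟩, (h4 i).2⟩
      · obtain ⟨i, hi, rfl⟩ := Finset.mem_image.1 h
        exact ⟨⟨k n, hx, i, (Finset.mem_Icc.1 hi).1, Or.inr rfl⟩, (h5 i).2⟩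
    have hvF : v (k n) j ∈ F := Finset.mem_union_right _
      (Finset.mem_image.2 ⟨j, Finset.mem_Icc.2 ⟨hjm, le_rfl⟩, rfl⟩)
    have huF : u (k n) j ∈ F := Finset.mem_union_left _
      (Finset.mem_image.2 ⟨j, Finset.mem_Icc.2 ⟨hjm, le_rfl⟩, rfl⟩)
    have hne1 : (F.filter (fun d => d < k)).Nonempty := ⟨_, Finset.mem_filter.2 ⟨hvF, hvk⟩⟩
    have hne2 : (F.filter (fun d => k < d)).Nonempty := ⟨_, Finset.mem_filter.2 ⟨huF, hku⟩⟩
    let a := (F.filter (fun d => d < k)).max' hne1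
    let a' := (F.filter (fun d => k < d)).min' hne2
    have ha : a ∈ F ∧ a < k := Finset.mem_filter.1 (Finset.max'_mem _ hne1)
    have ha' : a' ∈ F ∧ k < a' := Finset.mem_filter.1 (Finset.min'_mem _ hne2)
    have hmax : ∀ d ∈ F, d < k → d ≤ a := fun d hd hdk =>
      Finset.le_max' _ _ (Finset.mem_filter.2 ⟨hd, hdk⟩)
    have hmin : ∀ d ∈ F, k < d → a' ≤ d := fun d hd hdk =>
      Finset.min'_le _ _ (Finset.mem_filter.2 ⟨hd, hdk⟩)
    refine ⟨a, (hFC a ha.1).1, a', (hFC a' ha'.1).1, ha.2, ha'.2, (hFC a ha.1).2,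
      (hFC a' ha'.1).2, ?_⟩
    rintro d hd ⟨had, hda⟩
    have hdP := hCmem d hd
    have haP := hCmem a (hFC a ha.1).1
    have haP' := hCmem a' (hFC a' ha'.1).1
    have hdC := hd
    obtain ⟨x, hxne, i, hi, hdi⟩ := hd
    have hdx : d n = x := by
      rcases hdi with rfl | rfl
      · exact ((huv x hxne).2.2.2.1 i).2
      · exact ((huv x hxne).2.2.2.2.1 i).2
    have hxk : x = k n := by
      rcases lt_trichotomy (d n) (k n) with h | h | h
      · exfalso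
        have : d < a := hltP d hdP a haP (by rw [(hFC a ha.1).2]; exact h)
        exact lt_irrefl _ (had.trans this)
      · exact hdx.symm.trans h
      · exfalso
        have : a' < d := hltP a' haP' d hdP (by rw [(hFC a' ha'.1).2]; exact h)
        exact lt_irrefl _ (hda.trans this)
    subst hxk
    have hdF : d ∈ F → False := by
      intro hdF
      rcases lt_trichotomy d k with h | h | h
      · exact absurd (hmax d hdF h) (not_le.2 had)
      · exact hkC (h ▸ hdC)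
      · exact absurd (hmin d hdF h) (not_le.2 hda)
    by_cases hij : i ≤ j
    · apply hdF
      rcases hdi with rfl | rfl
      · exact Finset.mem_union_left _ (Finset.mem_image.2 ⟨i, Finset.mem_Icc.2 ⟨hi, hij⟩, rfl⟩)
      · exact Finset.mem_union_right _ (Finset.mem_image.2 ⟨i, Finset.mem_Icc.2 ⟨hi, hij⟩, rfl⟩)
    · have hji' : j ≤ i := (not_le.1 hij).le
      rcases hdi with rfl | rfl
      · exact absurd ((hmin _ huF hku).trans (h1 hji')) (not_le.2 hda)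
      · exact absurd ((h2 hji').trans (hmax _ hvF hvk)) (not_le.2 had)
  -- the central parts
  let Z : ℚ → Set Om := fun x => {k | ¬ b ∧ k ∈ blk x ∧ v x m < k ∧ k < u x m}
  have hZC : ∀ x, ∀ k ∈ Z x, k ∉ C := by
    rintro x k ⟨-, hk, hvk, hku⟩ ⟨x', hx', i, hi, hki⟩
    have hkx' : k n = x' := by
      rcases hki with rfl | rfl
      · exact ((huv x' hx').2.2.2.1 i).2
      · exact ((huv x' hx').2.2.2.2.1 i).2
    have hxx : x' = x := hkx'.symm.trans hk.2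
    subst hxx
    obtain ⟨h1, h2, -⟩ := huv x' hx'
    rcases hki with rfl | rfl
    · exact absurd (h1 hi) (not_le.2 hku)
    · exact absurd (h2 hi) (not_le.2 hvk)
  have hZpart : ∀ x, Z x = ∅ ∨ ∃ z ∈ P, z ∉ C ∧ Z x = part P C z := by
    intro x
    rcases Set.eq_empty_or_nonempty (Z x) with h | ⟨z, hz⟩
    · exact Or.inl h
    · right
      refine ⟨z, hz.2.1.1, hZC x z hz, ?_⟩
      have hne : (blk x).Nonempty := ⟨z, hz.2.1⟩
      obtain ⟨h1, h2, h3, h4, h5, h6, h7⟩ := huv x hne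
      have hvC : v x m ∈ C := ⟨x, hne, m, le_rfl, Or.inr rfl⟩
      have huC : u x m ∈ C := ⟨x, hne, m, le_rfl, Or.inl rfl⟩
      -- no cut strictly between `v x m` and `u x m`
      have hno : ∀ d ∈ C, ¬ (v x m < d ∧ d < u x m) := by
        rintro d hd ⟨hd1, hd2⟩
        have hdP := hCmem d hd
        have hdn : d n = x := by
          have e1 := coord_eq (hag _ (h5 m).1 _ hdP) (hag _ hdP _ (h4 m).1) hd1.le hd2.le
            ((h5 m).2.trans (h4 m).2.symm)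
          exact e1.trans (h5 m).2
        exact hZC x d ⟨hz.1, ⟨hdP, hdn⟩, hd1, hd2⟩ hd
      ext k
      constructor
      · intro hk
        refine ⟨hk.2.1.1, hZC x k hk, fun d hd => ⟨fun hdk => ?_, fun hdz => ?_⟩⟩
        · have : ¬ v x m < d := fun h => hno d hd ⟨h, hdk.trans hk.2.2.2⟩
          exact (not_lt.1 this).trans_lt hz.2.2.1
        · have : ¬ v x m < d := fun h => hno d hd ⟨h, hdz.trans hz.2.2.2⟩
          exact (not_lt.1 this).trans_lt hk.2.2.1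
      · rintro ⟨hkP, hkC, hk⟩
        have e1 : v x m < k := (hk _ hvC).2 hz.2.2.1
        have e2 : ¬ u x m < k := fun h => absurd ((hk _ huC).1 h) (not_lt.2 hz.2.2.2.le)
        have e3 : k < u x m := lt_of_le_of_ne (not_lt.1 e2) (fun h => hkC (h ▸ huC))
        refine ⟨hz.1, ⟨hkP, ?_⟩, e1, e3⟩
        have e4 := coord_eq (hag _ (h5 m).1 _ hkP) (hag _ hkP _ (h4 m).1) e1.le e3.le
          ((h5 m).2.trans (h4 m).2.symm)
        exact e4.trans (h5 m).2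
  obtain ⟨st, s1, s2, s3, s4, s5, s6, s7, s8, s9, s10⟩ := step_core P C n hCmem hCc hCne hgap
    (Z 0) (Z 1) (hZpart 0) (hZpart 1) (by
      intro z hz z' hz'
      refine hltP z hz.2.1.1 z' hz'.2.1.1 ?_
      rw [hz.2.1.2, hz'.2.1.2]; exact zero_lt_one)
  have hst : ∀ x : ℚ, x = 0 ∨ x = 1 → ((Z x).Nonempty → st x = Z x) ∧
      (Z x = ∅ → ∃ d, st x = {d}) := by
    rintro x (rfl | rfl)
    · exact ⟨s7, s8⟩
    · exact ⟨s9, s10⟩
  refine ⟨st, ⟨s1, s2, s3, s4, s5, ?_, ?_⟩⟩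
  · intro q hq
    rcases Set.eq_empty_or_nonempty (Z q) with h | h
    · exact Or.inl ((hst q hq).2 h)
    · right
      rw [(hst q hq).1 h]
      obtain ⟨z, hz⟩ := h
      exact ⟨hz.1, fun k hk => hk.2.1.2⟩
  · intro hb k hk hkn hρk
    by_cases hkC : k ∈ C
    · exact Or.inr (s6 k hkC)
    · left
      have hne : (blk (k n)).Nonempty := ⟨k, hk, rfl⟩
      obtain ⟨h1, h2, h3, h4, h5, h6, h7⟩ := huv (k n) hne
      obtain ⟨e1, e2⟩ := hρ k hk
      have e3 : v (k n) m < k := lt_of_le_of_ne ((h2 hρk).trans e1)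
        (fun h => hkC ⟨k n, hne, m, le_rfl, Or.inr h.symm⟩)
      have e4 : k < u (k n) m := lt_of_le_of_ne (e2.trans (h1 hρk))
        (fun h => hkC ⟨k n, hne, m, le_rfl, Or.inl h⟩)
      have hmem : k ∈ Z (k n) := ⟨hb, ⟨hk, rfl⟩, e3, e4⟩
      rw [(hst (k n) hkn).1 ⟨k, hmem⟩]
      exact hmem

end Pool.Agent.W866.SS
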