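import Mathlib
import Pool.Agent.W866.SS.Step

/-!
# The surjection onto a suborder
-/

set_option autoImplicit false

namespace Pool.Agent.W866.SS

open Set

/-- The sequences which are eventually equal to a member of `E`. -/
def tailSet (E : Set Om) : Set Om := {y | ∃ e ∈ E, {n | y n ≠ e n}.Finite}

/-- The initial segment of length `n`. -/
def pre (x : Om) (n : ℕ) : List ℚ := (List.range n).map x

theorem pre_congr {x y : Om} {n : ℕ} (h : ∀ i < n, x i = y i) : pre x n = pre y n := by
  unfold pre
  exact List.map_congr_left (fun i hi => h i (List.mem_range.1 hi))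

/-- The parts of the tree. -/
def node (K : Set Om) (st : Set Om → ℕ → ℕ → ℚ → Set Om) : List (ℚ × ℕ) → Set Om
  | [] => K
  | (a :: l) => st (node K st l) l.length a.2 a.1

/-- The history of a sequence of digits. -/
def path (G : List (ℚ × ℕ) → ℕ) (y : Om) : ℕ → List (ℚ × ℕ)
  | 0 => []
  | n + 1 => (y n, G (path G y n)) :: path G y n

theorem path_length (G : List (ℚ × ℕ) → ℕ) (y : Om) (n : ℕ) : (path G y n).length = n := by
  induction n with
  | zero => rfl
  | succ n ih => simp [path, ih]

theorem path_congr (G : List (ℚ × ℕ) → ℕ) {y y' : Om} {n : ℕ} (h : ∀ i < n, y i = y' i) :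
    path G y n = path G y' n := by
  induction n with
  | zero => rfl
  | succ n ih =>
    have := ih (fun i hi => h i (Nat.lt_succ_of_lt hi))
    simp only [path, this, h n (Nat.lt_succ_self n)]

theorem exists_map (E : Set Om) (hE : ∀ e ∈ E, ∀ n, e n = 0 ∨ e n = 1)
    (hdom : ∀ F : (tailSet E) → List (ℚ × ℕ) → ℕ, ∃ G : List (ℚ × ℕ) → ℕ,
      ∀ k, {l | G l < F k l}.Finite)
    (K : Set Om) (hK : K ⊆ tailSet E) (hKne : K.Nonempty)
    (S : Set (List ℚ)) (hS : ∀ x ∈ tailSet E, x ∈ K ↔ {n | pre x n ∈ S}.Finite) :
    ∃ f : Om → Om, MonotoneOn f (tailSet E) ∧ f '' (tailSet E) = K := by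
  classical
  let b : Set Om → ℕ → Prop := fun P n => ∃ k ∈ P, pre k n ∈ S
  let agr : Set Om → ℕ → Prop := fun P n => ∀ x ∈ P, ∀ y ∈ P, ∀ i < n, x i = y i
  have hex : ∀ (P : Set Om) (n : ℕ), ∃ ρ : Om → ℕ, ∃ st : ℕ → ℚ → Set Om,
      P.Nonempty → agr P n → ∀ m, IsStep P n (b P n) ρ m (st m) := by
    intro P n
    by_cases h : P.Nonempty ∧ agr P n
    · obtain ⟨ρ, hρ⟩ := step_exists P h.1 n h.2 (b P n)
      choose st hst using hρ
      exact ⟨ρ, st, fun _ _ => hst⟩
    · exact ⟨fun _ => 0, fun _ _ => ∅, fun h1 h2 => absurd ⟨h1, h2⟩ h⟩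
  choose ρ st hst using hex
  have hinv : ∀ l, (node K st l).Nonempty ∧ agr (node K st l) l.length := by
    intro l
    induction l with
    | nil => exact ⟨hKne, fun x _ y _ i hi => absurd hi (Nat.not_lt_zero _)⟩
    | cons a l ih =>
      have hs := hst _ _ ih.1 ih.2 a.2
      refine ⟨hs.ne a.1, ?_⟩
      intro x hx y hy i hi
      change x ∈ st (node K st l) l.length a.2 a.1 at hx
      change y ∈ st (node K st l) l.length a.2 a.1 at hy
      rcases Nat.lt_succ_iff_lt_or_eq.1 hi with h | h
      · exact ih.2 x (hs.sub _ hx) y (hs.sub _ hy) i h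
      · subst h
        rcases hs.shape a.1 with ⟨d, hd⟩ | ⟨c, hc, c', hc', hcc, hd⟩
        · rw [hd] at hx hy
          rw [Set.mem_singleton_iff.1 hx, Set.mem_singleton_iff.1 hy]
        · rw [hd] at hx hy
          have e1 := coord_eq (ih.2 _ hc _ hx.1) (ih.2 _ hx.1 _ hc') hx.2.1.le hx.2.2.le hcc
          have e2 := coord_eq (ih.2 _ hc _ hy.1) (ih.2 _ hy.1 _ hc') hy.2.1.le hy.2.2.le hcc
          exact e1.trans e2.symm
  obtain ⟨G, hG⟩ := hdom (fun k l => ρ (node K st l) l.length k.1)
  let Pn : Om → ℕ → Set Om := fun y n => node K st (path G y n)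
  have hPne : ∀ y n, (Pn y n).Nonempty := fun y n => (hinv _).1
  have hPag : ∀ y n, agr (Pn y n) n := fun y n => by
    have := (hinv (path G y n)).2
    rwa [path_length] at this
  have hP0 : ∀ y, Pn y 0 = K := fun y => rfl
  have hPs : ∀ y n, Pn y (n + 1) = st (Pn y n) n (G (path G y n)) (y n) := fun y n => by
    change st (node K st (path G y n)) (path G y n).length (G (path G y n)) (y n) = _
    rw [path_length]
  have hstep : ∀ y n m, IsStep (Pn y n) n (b (Pn y n) n) (ρ (Pn y n) n) m (st (Pn y n) n m) :=
    fun y n m => hst _ _ (hPne y n) (hPag y n) m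
  have hPsub : ∀ y n, Pn y (n + 1) ⊆ Pn y n := fun y n => by
    rw [hPs]; exact (hstep y n _).sub _
  have hPanti : ∀ y n m, n ≤ m → Pn y m ⊆ Pn y n := fun y n m h => by
    induction h with
    | refl => exact subset_rfl
    | step _ ih => exact (hPsub y _).trans ih
  have huniq : ∀ y t t', (∀ n, t ∈ Pn y n) → (∀ n, t' ∈ Pn y n) → t = t' := by
    intro y t t' ht ht'
    funext i
    exact hPag y (i + 1) t (ht _) t' (ht' _) i (Nat.lt_succ_self i)
  -- singletons stay
  have hsing : ∀ y n d, Pn y n = {d} → ∀ m, n ≤ m → Pn y m = {d} := by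
    intro y n d hd m hm
    refine Set.Subset.antisymm ?_ ?_
    · rw [← hd]; exact hPanti y n m hm
    · obtain ⟨z, hz⟩ := hPne y m
      have : z ∈ Pn y n := hPanti y n m hm hz
      rw [hd] at this
      rw [← Set.mem_singleton_iff.1 this]
      exact Set.singleton_subset_iff.2 hz
  have hexist : ∀ y ∈ tailSet E, ∃ t ∈ K, ∀ n, t ∈ Pn y n := by
    intro y hy
    by_cases hs : ∃ n d, Pn y n = {d}
    · obtain ⟨n, d, hd⟩ := hs
      have hdn : ∀ m, d ∈ Pn y m := by
        intro m
        rcases le_total n m with h | h
        · rw [hsing y n d hd m h]; rfl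
        · exact hPanti y m n h (by rw [hd]; rfl)
      exact ⟨d, hdn 0, hdn⟩
    · push Not at hs
      have hsh : ∀ n, ∃ a ∈ Pn y n, ∃ a' ∈ Pn y n, a n = a' n ∧
          Pn y (n + 1) = {k | k ∈ Pn y n ∧ a < k ∧ k < a'} := by
        intro n
        rcases (hstep y n (G (path G y n))).shape (y n) with ⟨d, hd⟩ | h
        · exact absurd ((hPs y n).trans hd) (hs (n + 1) d)
        · obtain ⟨a, ha, a', ha', h1, h2⟩ := h
          exact ⟨a, ha, a', ha', h1, (hPs y n).trans h2⟩
      choose a ha a' ha' haa hP using hsh
      let t : Om := toLex (fun n => a n n)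
      have htn : ∀ n, t n = a n n := fun n => rfl
      have hkt : ∀ n, ∀ k ∈ Pn y (n + 1), k n = t n := by
        intro n k hk
        rw [hP n] at hk
        have h3 : k n = (a n) n := coord_eq (hPag y n _ (ha n) _ hk.1) (hPag y n _ hk.1 _ (ha' n))
          hk.2.1.le hk.2.2.le (haa n)
        exact h3
      have hkt' : ∀ n, ∀ k ∈ Pn y n, ∀ i < n, k i = t i := by
        intro n k hk i hi
        exact hkt i k (hPanti y (i + 1) n hi hk)
      obtain ⟨e, he, hfin⟩ := hy
      obtain ⟨N, hN⟩ : ∃ N, ∀ n, N ≤ n → y n = e n := by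
        obtain ⟨N, hN⟩ := hfin.bddAbove
        refine ⟨N + 1, fun n hn => ?_⟩
        by_contra h
        have := hN (show n ∈ {n | y n ≠ e n} from h)
        omega
      have hcan : ∀ n, N ≤ n → t n = y n ∧ ¬ b (Pn y n) n := by
        intro n hn
        have h01 : y n = 0 ∨ y n = 1 := by rw [hN n hn]; exact hE e he n
        rcases (hstep y n (G (path G y n))).canon (y n) h01 with ⟨d, hd⟩ | ⟨h1, h2⟩
        · exact absurd ((hPs y n).trans hd) (hs (n + 1) d)
        · obtain ⟨k, hk⟩ := hPne y (n + 1)
          refine ⟨?_, h1⟩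
          rw [← hkt n k hk]
          exact h2 k (by rw [← hPs]; exact hk)
      have htX : t ∈ tailSet E := by
        refine ⟨e, he, (Set.finite_Iio N).subset ?_⟩
        intro n hn
        by_contra h
        have h' : N ≤ n := not_lt.1 h
        exact hn ((hcan n h').1.trans (hN n h'))
      have htK : t ∈ K := by
        rw [hS t htX]
        refine (Set.finite_Iio N).subset ?_
        intro n hn
        by_contra h
        have h' : N ≤ n := not_lt.1 h
        obtain ⟨k, hk⟩ := hPne y n
        apply (hcan n h').2
        refine ⟨k, hk, ?_⟩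
        rw [pre_congr (hkt' n k hk)]
        exact hn
      refine ⟨t, htK, fun n => ?_⟩
      induction n with
      | zero => exact htK
      | succ n ih =>
        rw [hP n]
        refine ⟨ih, ?_, ?_⟩
        · have h1 : a n < a (n + 1) := by
            have := ha (n + 1)
            rw [hP n] at this
            exact this.2.1
          refine h1.trans_le (not_lt.1 fun hlt => ?_)
          obtain ⟨j, hj, hjlt⟩ := lt_iff.1 hlt
          obtain ⟨z, hz⟩ := hPne y (max (j + 1) (n + 2))
          have hz1 := hkt' _ z hz
          have hz2 : z ∈ Pn y (n + 1 + 1) := hPanti y _ _ (le_max_right _ _) hz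
          rw [hP (n + 1)] at hz2
          have hzlt : z < a (n + 1) := by
            refine lt_iff.2 ⟨j, fun i hi => ?_, ?_⟩
            · rw [hz1 i (by omega)]; exact hj i hi
            · rw [hz1 j (by omega)]; exact hjlt
          exact lt_irrefl _ (hzlt.trans hz2.2.1)
        · have h1 : a' (n + 1) < a' n := by
            have := ha' (n + 1)
            rw [hP n] at this
            exact this.2.2
          refine lt_of_le_of_lt (not_lt.1 fun hlt => ?_) h1
          obtain ⟨j, hj, hjlt⟩ := lt_iff.1 hlt
          obtain ⟨z, hz⟩ := hPne y (max (j + 1) (n + 2))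
          have hz1 := hkt' _ z hz
          have hz2 : z ∈ Pn y (n + 1 + 1) := hPanti y _ _ (le_max_right _ _) hz
          rw [hP (n + 1)] at hz2
          have hzlt : a' (n + 1) < z := by
            refine lt_iff.2 ⟨j, fun i hi => ?_, ?_⟩
            · rw [hz1 i (by omega)]; exact hj i hi
            · rw [hz1 j (by omega)]; exact hjlt
          exact lt_irrefl _ (hzlt.trans hz2.2.2)
  have hexist' : ∀ y : Om, ∃ t : Om, y ∈ tailSet E → t ∈ K ∧ ∀ n, t ∈ Pn y n := by
    intro y
    by_cases hy : y ∈ tailSet E
    · obtain ⟨t, ht, ht'⟩ := hexist y hy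
      exact ⟨t, fun _ => ⟨ht, ht'⟩⟩
    · exact ⟨y, fun h => absurd h hy⟩
  choose f hf using hexist'
  refine ⟨f, ?_, Set.Subset.antisymm ?_ ?_⟩
  · intro y hy y' hy' hle
    rcases hle.lt_or_eq with hlt | rfl
    · obtain ⟨n, hn, hnlt⟩ := lt_iff.1 hlt
      have hpath := path_congr G hn
      have hPeq : Pn y n = Pn y' n := by
        change node K st (path G y n) = node K st (path G y' n)
        rw [hpath]
      have h1 := (hf y hy).2 (n + 1)
      have h2 := (hf y' hy').2 (n + 1)
      rw [hPs] at h1 h2
      rw [← hPeq, ← hpath] at h2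
      rcases (hstep y n (G (path G y n))).mono _ _ hnlt with ⟨d, hd1, hd2⟩ | h
      · rw [hd1] at h1
        rw [hd2] at h2
        rw [Set.mem_singleton_iff.1 h1, Set.mem_singleton_iff.1 h2]
      · exact (h _ h1 _ h2).le
    · exact le_rfl
  · rintro _ ⟨y, hy, rfl⟩
    exact (hf y hy).1
  · intro k hk
    have hkX := hK hk
    by_cases hcase : ∃ y n, Pn y n = {k}
    · obtain ⟨y, n, hn⟩ := hcase
      obtain ⟨e, he, -⟩ := hkX
      let y' : Om := toLex (fun i => if i < n then y i else e i)
      have hyy : ∀ i < n, y i = y' i := fun i hi => by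
        change y i = (if i < n then y i else e i)
        rw [if_pos hi]
      have hy' : y' ∈ tailSet E := by
        refine ⟨e, he, (Set.finite_Iio n).subset ?_⟩
        intro i hi
        by_contra h
        apply hi
        exact if_neg (show ¬ i < n from h)
      have hn' : Pn y' n = {k} := by
        rw [← hn]
        change node K st (path G y' n) = node K st (path G y n)
        rw [path_congr G hyy]
      refine ⟨y', hy', ?_⟩
      have := (hf y' hy').2 n
      rw [hn'] at this
      exact this
    · push Not at hcase
      -- the digit chosen at a history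
      have hdig : ∀ l : List (ℚ × ℕ), ∃ q : ℚ, k ∈ node K st l →
          k ∈ st (node K st l) l.length (G l) q ∧
          (k ∈ st (node K st l) l.length (G l) (k l.length) → q = k l.length) := by
        intro l
        by_cases h1 : k ∈ st (node K st l) l.length (G l) (k l.length)
        · exact ⟨k l.length, fun _ => ⟨h1, fun _ => rfl⟩⟩
        · by_cases h2 : k ∈ node K st l
          · obtain ⟨q, hq⟩ := (hst _ _ (hinv l).1 (hinv l).2 (G l)).cover k h2
            exact ⟨q, fun _ => ⟨hq, fun h => absurd h h1⟩⟩
          · exact ⟨0, fun h => absurd h h2⟩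
      choose q hq using hdig
      let L : ℕ → List (ℚ × ℕ) := fun n => Nat.rec [] (fun _ l => (q l, G l) :: l) n
      have hL0 : L 0 = [] := rfl
      have hLs : ∀ n, L (n + 1) = (q (L n), G (L n)) :: L n := fun n => rfl
      let y : Om := toLex (fun n => q (L n))
      have hyn : ∀ n, y n = q (L n) := fun n => rfl
      have hLp : ∀ n, path G y n = L n := by
        intro n
        induction n with
        | zero => rfl
        | succ n ih => rw [hLs, path, ih, hyn]
      have hLlen : ∀ n, (L n).length = n := fun n => by rw [← hLp]; exact path_length G y n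
      have hkP : ∀ n, k ∈ Pn y n := by
        intro n
        induction n with
        | zero => exact hk
        | succ n ih =>
          have ih' : k ∈ node K st (L n) := by rw [← hLp]; exact ih
          have := (hq (L n) ih').1
          rw [hLlen] at this
          rw [hPs, hLp, hyn]
          change k ∈ st (node K st (path G y n)) n (G (L n)) (q (L n))
          rw [hLp]
          exact this
      have hLinj : Function.Injective L := by
        intro m n hmn
        rw [← hLlen m, ← hLlen n, hmn]
      have hfin1 : {n | G (L n) < ρ (node K st (L n)) (L n).length k}.Finite := by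
        have := hG ⟨k, hkX⟩
        exact this.preimage (hLinj.injOn)
      have hfin2 : {n | pre k n ∈ S}.Finite := (hS k hkX).1 hk
      obtain ⟨e, he, hfin3⟩ := hkX
      have hyX : y ∈ tailSet E := by
        refine ⟨e, he, ((hfin1.union hfin2).union hfin3).subset ?_⟩
        intro n hn
        by_contra hcon
        have c1 : ¬ G (L n) < ρ (node K st (L n)) (L n).length k := fun h =>
          hcon (Or.inl (Or.inl h))
        have c2 : pre k n ∉ S := fun h => hcon (Or.inl (Or.inr h))
        have c3 : k n = e n := by
          by_contra h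
          exact hcon (Or.inr h)
        apply hn
        have h01 : k n = 0 ∨ k n = 1 := by rw [c3]; exact hE e he n
        have hb : ¬ b (Pn y n) n := by
          rintro ⟨k', hk', hS'⟩
          rw [pre_congr (hPag y n k' hk' k (hkP n))] at hS'
          exact c2 hS'
        have hρ : ρ (Pn y n) n k ≤ G (path G y n) := by
          have h4 := not_lt.1 c1
          rw [hLlen, ← hLp] at h4
          exact h4
        rw [← c3]
        rcases (hstep y n (G (path G y n))).wide hb k (hkP n) h01 hρ with h5 | ⟨q', hq'⟩
        · have ih' : k ∈ node K st (L n) := by rw [← hLp]; exact hkP n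
          have h6 := (hq (L n) ih').2
          rw [hLlen] at h6
          rw [hyn]
          apply h6
          change k ∈ st (node K st (path G y n)) n (G (path G y n)) (k n) at h5
          rw [hLp] at h5
          exact h5
        · exfalso
          let y' : Om := toLex (fun i => if i < n then y i else q')
          have hyy : ∀ i < n, y i = y' i := fun i hi => by
            change y i = (if i < n then y i else q')
            rw [if_pos hi]
          have hyn' : y' n = q' := by
            change (if n < n then y n else q') = q'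
            rw [if_neg (lt_irrefl _)]
          apply hcase y' (n + 1)
          rw [hPs, hyn', ← path_congr G hyy, ← hq']
          change st (node K st (path G y' n)) n _ q' = st (node K st (path G y n)) n _ q'
          rw [path_congr G hyy]
      exact ⟨y, hyX, huniq y _ _ (hf y hyX).2 hkP⟩

end Pool.Agent.W866.SS
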