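import Mathlib
import Pool.Agent.W866.SS.Tree
import Pool.Agent.W866.SS.Solovay

/-!
# Uncountable strongly surjective sets of reals from Martin's axiom
-/

set_option autoImplicit false

namespace Pool.Agent.W866.SS

open Set Cardinal Pool.Agent.W684

/-- A set `X` of reals is strongly surjective: for every nonempty `K ⊆ X` there is an
order preserving (in the weak sense) surjection from `X` onto `K`. -/
def StronglySurjective (X : Set ℝ) : Prop :=
  ∀ K : Set ℝ, K ⊆ X → K.Nonempty → ∃ f : ℝ → ℝ, MonotoneOn f X ∧ f '' X = K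

theorem pre_inj {x y : Om} {n m : ℕ} (h : pre x n = pre y m) : n = m ∧ ∀ i < n, x i = y i := by
  have h1 : n = m := by
    have := congrArg List.length h
    simpa [pre] using this
  subst h1
  refine ⟨rfl, fun i hi => ?_⟩
  have := congrArg (fun l => l[i]?) h
  simpa [pre, hi] using this

theorem mk_tailSet_le (E : Set Om) (hE : #E ≤ ℵ₁) : #(tailSet E) ≤ ℵ₁ := by
  classical
  have h : tailSet E ⊆ Set.range (fun p : E × List ℚ =>
      (toLex (fun i => if i < p.2.length then p.2.getD i 0 else p.1.1 i) : Om)) := by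
    rintro y ⟨e, he, hfin⟩
    obtain ⟨N, hN⟩ := hfin.bddAbove
    refine ⟨(⟨e, he⟩, pre y (N + 1)), ?_⟩
    have hl : (pre y (N + 1)).length = N + 1 := by simp [pre]
    funext i
    change (if i < (pre y (N + 1)).length then (pre y (N + 1)).getD i 0 else e i) = y i
    rw [hl]
    split_ifs with h1
    · simp [pre, List.getD, h1]
    · by_contra h2
      have := hN (show i ∈ {n | y n ≠ e n} from fun h3 => h2 h3.symm)
      omega
  refine (Cardinal.mk_le_mk_of_subset h).trans (Cardinal.mk_range_le.trans ?_)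
  rw [Cardinal.mk_prod, Cardinal.lift_id, Cardinal.lift_id]
  refine (mul_le_mul' hE ((Cardinal.mk_le_aleph0 (α := List ℚ)).trans
    (Cardinal.aleph0_le_aleph 1))).trans ?_
  rw [Cardinal.mul_eq_self (Cardinal.aleph0_le_aleph 1)]

theorem strongly_om (hMA : MartinAxiomAleph1) (E : Set Om) (hE : ∀ e ∈ E, ∀ n, e n = 0 ∨ e n = 1)
    (hcard : #E ≤ ℵ₁) (K : Set Om) (hK : K ⊆ tailSet E) (hKne : K.Nonempty) :
    ∃ f : Om → Om, MonotoneOn f (tailSet E) ∧ f '' (tailSet E) = K := by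
  classical
  have hX := mk_tailSet_le E hcard
  have hdiff : ∀ x y : Om, x ≠ y →
      ({l | ∃ n, l = pre x n} ∩ {l : List ℚ | ∃ n, l = pre y n}).Finite := by
    intro x y hxy
    obtain ⟨j, -, hj⟩ := exists_first hxy
    refine ((Set.finite_Iio (j + 1)).image (pre x)).subset ?_
    rintro l ⟨⟨n, hn⟩, ⟨m, hm⟩⟩
    refine ⟨n, ?_, hn.symm⟩
    by_contra hcon
    have hcon' : j + 1 ≤ n := not_lt.1 hcon
    have := pre_inj (hn.symm.trans hm)
    exact hj (this.2 j (by omega))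
  have hinf : ∀ x : Om, ({l : List ℚ | ∃ n, l = pre x n}).Infinite := fun x =>
    Set.infinite_of_injective_forall_mem (f := fun n => pre x n)
      (fun a b hab => (pre_inj hab).1) (fun n => ⟨n, rfl⟩)
  obtain ⟨S, hS1, hS2⟩ := solovay (N := List ℚ) (ιA := K) (ιB := ↥(tailSet E \ K)) hMA
    ((Cardinal.mk_le_mk_of_subset hK).trans hX)
    ((Cardinal.mk_le_mk_of_subset Set.diff_subset).trans hX)
    (fun k => {l | ∃ n, l = pre k.1 n}) (fun x => {l | ∃ n, l = pre x.1 n}) (by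
      intro x F
      have hfin : ({l : List ℚ | ∃ n, l = pre x.1 n} ∩
          ⋃ k ∈ F, {l : List ℚ | ∃ n, l = pre k.1 n}).Finite := by
        rw [Set.inter_iUnion₂]
        refine F.finite_toSet.biUnion (fun k _ => hdiff x.1 k.1 ?_)
        rintro h
        exact x.2.2 (h ▸ k.2)
      refine ((hinf x.1).sdiff hfin).mono ?_
      rintro l ⟨h1, h2⟩
      exact ⟨h1, fun h3 => h2 ⟨h1, h3⟩⟩)
  refine exists_map E hE (fun F => dominate hMA hX F) K hK hKne S (fun x hx => ⟨fun hxK => ?_,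
    fun hfin => ?_⟩)
  · have h1 := hS1 ⟨x, hxK⟩
    have h2 : {n | pre x n ∈ S} = (pre x) ⁻¹' (S ∩ {l | ∃ n, l = pre x n}) := by
      ext n
      exact ⟨fun h => ⟨h, n, rfl⟩, fun h => h.1⟩
    rw [h2]
    exact h1.preimage (fun a _ b _ hab => (pre_inj hab).1)
  · by_contra hxK
    apply hS2 ⟨x, hx, hxK⟩
    refine (hfin.image (pre x)).subset ?_
    rintro l ⟨hl, n, rfl⟩
    exact ⟨n, hl, rfl⟩

/-- The reals embed into the `0`-`1`-sequences with the lexicographic order. -/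
theorem exists_real_embedding : ∃ ψ : ℝ → Om, StrictMono ψ ∧ ∀ a n, ψ a n = 0 ∨ ψ a n = 1 := by
  classical
  obtain ⟨q, hq⟩ := exists_surjective_nat ℚ
  let ψ : ℝ → Om := fun a => toLex (fun n => if (q n : ℝ) < a then 1 else 0)
  have hψ : ∀ a n, ψ a n = if (q n : ℝ) < a then 1 else 0 := fun _ _ => rfl
  refine ⟨ψ, fun a b hab => ?_, fun a n => ?_⟩
  · obtain ⟨r, hr1, hr2⟩ := exists_rat_btwn hab
    obtain ⟨m, rfl⟩ := hq r
    have hne : ψ a ≠ ψ b := by
      intro h
      have h1 : ψ a m = ψ b m := by rw [h]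
      rw [hψ, hψ, if_neg (not_lt.2 hr1.le), if_pos hr2] at h1
      exact zero_ne_one h1
    obtain ⟨n, hn, hn'⟩ := exists_first hne
    refine lt_iff.2 ⟨n, hn, ?_⟩
    rw [hψ, hψ] at hn' ⊢
    by_cases h1 : (q n : ℝ) < a
    · exact absurd (by rw [if_pos h1, if_pos (h1.trans hab)]) hn'
    · rw [if_neg h1] at hn' ⊢
      by_cases h2 : (q n : ℝ) < b
      · rw [if_pos h2]; exact zero_lt_one
      · exact absurd (by rw [if_neg h2]) hn'
  · rw [hψ]
    split_ifs
    · exact Or.inr rfl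
    · exact Or.inl rfl

theorem main (hMA : MartinAxiomAleph1) (A : Set ℝ) (hA : #A ≤ ℵ₁) :
    ∃ X : Set ℝ, #X = ℵ₁ ∧ StronglySurjective X ∧
      ∃ g : ℝ → ℝ, StrictMonoOn g A ∧ Set.MapsTo g A X := by
  classical
  obtain ⟨A1, hA1⟩ : ∃ A1 : Set ℝ, #A1 = ℵ₁ :=
    Cardinal.le_mk_iff_exists_set.1 (by rw [Cardinal.mk_real]; exact Cardinal.aleph_one_le_continuum)
  obtain ⟨ψ, hψ, hψ01⟩ := exists_real_embedding
  obtain ⟨φ, hφ⟩ := exists_embedding
  let E : Set Om := ψ '' (A ∪ A1)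
  have hE : ∀ e ∈ E, ∀ n, e n = 0 ∨ e n = 1 := by
    rintro _ ⟨a, -, rfl⟩ n; exact hψ01 a n
  have hcard : #E ≤ ℵ₁ := by
    refine Cardinal.mk_image_le.trans ((Cardinal.mk_union_le _ _).trans
      ((add_le_add hA hA1.le).trans ?_))
    rw [Cardinal.add_eq_self (Cardinal.aleph0_le_aleph 1)]
  have hEt : E ⊆ tailSet E := fun e he => ⟨e, he, by simp⟩
  refine ⟨φ '' (tailSet E), ?_, ?_, fun a => φ (ψ a), ?_, ?_⟩
  · rw [Cardinal.mk_image_eq hφ.injective]
    refine le_antisymm (mk_tailSet_le E hcard) ?_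
    rw [← hA1, ← Cardinal.mk_image_eq (s := A1) hψ.injective]
    exact Cardinal.mk_le_mk_of_subset ((Set.image_mono Set.subset_union_right).trans hEt)
  · intro K hK hKne
    let K' : Set Om := {y | y ∈ tailSet E ∧ φ y ∈ K}
    have hKK' : φ '' K' = K := by
      ext z
      constructor
      · rintro ⟨y, hy, rfl⟩; exact hy.2
      · intro hz
        obtain ⟨y, hy, rfl⟩ := hK hz
        exact ⟨y, ⟨hy, hz⟩, rfl⟩
    obtain ⟨f, hf1, hf2⟩ := strongly_om hMA E hE hcard K' (fun y hy => hy.1) (by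
      obtain ⟨z, hz⟩ := hKne
      obtain ⟨y, hy, rfl⟩ := hK hz
      exact ⟨y, hy, hz⟩)
    have hinv : ∀ y, Function.invFun φ (φ y) = y := Function.leftInverse_invFun hφ.injective
    refine ⟨fun z => φ (f (Function.invFun φ z)), ?_, ?_⟩
    · rintro _ ⟨y, hy, rfl⟩ _ ⟨y', hy', rfl⟩ hle
      change φ (f (Function.invFun φ (φ y))) ≤ φ (f (Function.invFun φ (φ y')))
      rw [hinv, hinv]
      exact hφ.monotone (hf1 hy hy' (hφ.le_iff_le.1 hle))
    · rw [← hKK', ← hf2]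
      ext z
      constructor
      · rintro ⟨_, ⟨y, hy, rfl⟩, rfl⟩
        refine ⟨f y, ⟨y, hy, rfl⟩, ?_⟩
        change φ (f y) = φ (f (Function.invFun φ (φ y)))
        rw [hinv]
      · rintro ⟨_, ⟨y, hy, rfl⟩, rfl⟩
        refine ⟨φ y, ⟨y, hy, rfl⟩, ?_⟩
        change φ (f (Function.invFun φ (φ y))) = φ (f y)
        rw [hinv]
  · intro a _ b _ hab
    exact hφ (hψ hab)
  · intro a ha
    exact ⟨ψ a, hEt ⟨a, Or.inl ha, rfl⟩, rfl⟩

end Pool.Agent.W866.SS
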